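import Mathlib

/-!
# The orders `E_P`: definitions

`ℕ+ = {1, 2, ...}` is the set of natural numbers of the problem.
-/

set_option autoImplicit false

universe w

namespace Pool.Agent.R595.EP

open FirstOrder FirstOrder.Language Cardinal

/-- the full language of `ℕ+`: a symbol for every function and every relation on `ℕ+` -/
def Full : FirstOrder.Language.{0, 0} := ⟨fun n => (Fin n → ℕ+) → ℕ+, fun n => Set (Fin n → ℕ+)⟩

instance fullStructure : Full.Structure ℕ+ where
  funMap {n} (f : (Fin n → ℕ+) → ℕ+) x := f x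
  RelMap {n} (r : Set (Fin n → ℕ+)) x := x ∈ r

/-- `𝔠⁺`-saturation: every family of at most `𝔠` definable (with parameters) subsets of `M` with
the finite intersection property has nonempty intersection. (Definable sets are internal.) -/
def Saturated (M : Type w) [Full.Structure M] : Prop :=
  ∀ S : Set (Set M), #S ≤ continuum →
    (∀ s ∈ S, Set.Definable₁ (Set.univ : Set M) Full s) →
    (∀ T ⊆ S, T.Finite → (⋂₀ T).Nonempty) → (⋂₀ S).Nonempty

section
variable (M : Type w) [Full.Structure M]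

/-- `*A` for a set `A` -/
def star (A : Set ℕ+) : Set M :=
  {x | Structure.RelMap (L := Full) (n := 1) ({v | v 0 ∈ A} : Set (Fin 1 → ℕ+)) ![x]}

/-- `*f` for a function `f` -/
def starF (f : ℕ+ → ℕ+) (x : M) : M :=
  Structure.funMap (L := Full) (n := 1) (fun v : Fin 1 → ℕ+ => f (v 0)) ![x]

/-- the order of `*ℕ` -/
def lt (x y : M) : Prop :=
  Structure.RelMap (L := Full) (n := 2) ({v | v 0 < v 1} : Set (Fin 2 → ℕ+)) ![x, y]

/-- the power function of `*ℕ` -/
def pow (p x : M) : M :=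
  Structure.funMap (L := Full) (n := 2) (fun v : Fin 2 → ℕ+ => v 0 ^ (v 1 : ℕ)) ![p, x]

/-- `𝒰`: the divisibility-upward closed sets -/
def UpClosed (A : Set ℕ+) : Prop := ∀ a ∈ A, ∀ m : ℕ+, a ∣ m → m ∈ A

/-- `μ(P)`: the points `x` with `v(x) = P` -/
def mu (P : Ultrafilter ℕ+) : Set M := {x | ∀ A : Set ℕ+, A ∈ P ↔ x ∈ star M A}

/-- `(p, x) ≈ (q, y)` iff `v(p^x) =_~ v(q^y)` -/
def equi (P : Ultrafilter ℕ+) : Setoid (mu M P × M) where
  r a b := ∀ A : Set ℕ+, UpClosed A → (pow M a.1 a.2 ∈ star M A ↔ pow M b.1 b.2 ∈ star M A)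
  iseqv := ⟨fun _ _ _ => Iff.rfl, fun h A hA => (h A hA).symm,
    fun h h' A hA => (h A hA).trans (h' A hA)⟩

/-- the set of classes `E_P` -/
def E (P : Ultrafilter ℕ+) : Type w := Quotient (equi M P)

/-- the strict order of `E_P` -/
def Prec (P : Ultrafilter ℕ+) (u w : E M P) : Prop :=
  u ≠ w ∧ ∃ (p : mu M P) (x y : M), lt M x y ∧ Quotient.mk (equi M P) (p, x) = u ∧
    Quotient.mk (equi M P) (p, y) = w

/-- the order of `E_P` -/
def Le (P : Ultrafilter ℕ+) (u w : E M P) : Prop := Prec M P u w ∨ u = w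

end

/-- the set of primes -/
def Primes : Set ℕ+ := {p | (p : ℕ).Prime}

/-- nonprincipal -/
def NonPr {α : Type} (P : Ultrafilter α) : Prop := ∀ n : α, ({n} : Set α) ∉ P

/-- **Task A** (Shelah): if CH fails there are two nonprincipal ultrafilters on `ℕ` with
non-isomorphic ultrapowers of `(ℕ, ≤)`. -/
def TaskA : Prop := ℵ₁ ≠ continuum.{0} → ∃ U V : Ultrafilter ℕ, NonPr U ∧ NonPr V ∧
  IsEmpty (Filter.Germ (U : Filter ℕ) ℕ ≃o Filter.Germ (V : Filter ℕ) ℕ)

/-- **Task B** (Hausdorff): under CH all ultrapowers of `(ℕ, ≤)` are isomorphic. -/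
def TaskB : Prop := ℵ₁ = continuum.{0} → ∀ U V : Ultrafilter ℕ, NonPr U → NonPr V →
  Nonempty (Filter.Germ (U : Filter ℕ) ℕ ≃o Filter.Germ (V : Filter ℕ) ℕ)

/-- **Task C**: `E_P` is isomorphic to the set of the nonempty lower sets of the ultrapower of
`ℕ+` by `P`. -/
def TaskC : Prop := ∀ (M : Type w) [Full.Structure M], Full.ElementarilyEquivalent M ℕ+ →
  Saturated M → ∀ P : Ultrafilter ℕ+, Primes ∈ P → NonPr P →
    Nonempty ((Le M P) ≃r (fun I J : {I : LowerSet (Filter.Germ (P : Filter ℕ+) ℕ+) // I ≠ ⊥} =>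
      I.1 ≤ J.1))

end Pool.Agent.R595.EP
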