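import Pool.Agent.R595.EP.Defs

/-!
# Task A: two ultrapowers of `(ℕ, ≤)` that are not isomorphic, if CH fails (Shelah)
-/

set_option autoImplicit false

namespace Pool.Agent.R595.EP.SA

open Filter Set Cardinal

theorem wf_choice {α β : Type} (r : α → α → Prop) (wf : WellFounded r)
    (Rel : (i : α) → ((j : α) → r j i → β) → β → Prop)
    (h : ∀ i f, ∃ b, Rel i f b) : ∃ pick : α → β, ∀ i, Rel i (fun j _ => pick j) (pick i) := by
  classical
  choose c hc using h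
  refine ⟨wf.fix (fun i f => c i f), fun i => ?_⟩
  have := hc i (fun j _ => wf.fix (fun i f => c i f) j)
  rw [wf.fix_eq]
  exact this

/-! ## Independent functions -/

section
variable {ι : Type} (f : ι → ℕ → ℕ)

/-- the basic sets -/
def A (s : Finset ι) (v : ι → ℕ) : Set ℕ := {n | ∀ i ∈ s, f i n = v i}

variable {f}

theorem A_mono {s t : Finset ι} (h : s ⊆ t) (v : ι → ℕ) : A f t v ⊆ A f s v :=
  fun _ hn i hi => hn i (h hi)

end

/-- the truncation of a set to the numbers below `k` -/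
noncomputable def tr (x : Set ℕ) (k : ℕ) : Finset ℕ := by
  classical exact (Finset.range k).filter (· ∈ x)

theorem mem_tr {x : Set ℕ} {k n : ℕ} : n ∈ tr x k ↔ n < k ∧ n ∈ x := by
  classical
  simp [tr]

/-- finitely many sets have different truncations from some point on -/
theorem exists_tr_inj (a : Finset (Set ℕ)) : ∃ k0, ∀ k ≥ k0, ∀ x ∈ a, ∀ y ∈ a,
    tr x k = tr y k → x = y := by
  classical
  have h : ∀ x y : Set ℕ, ∃ k0, ∀ k ≥ k0, tr x k = tr y k → x = y := by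
    intro x y
    by_cases hxy : x = y
    · exact ⟨0, fun _ _ _ => hxy⟩
    · have : ∃ n, ¬ (n ∈ x ↔ n ∈ y) := by
        by_contra hcon
        push Not at hcon
        exact hxy (Set.ext fun n => hcon n)
      obtain ⟨n, hn⟩ := this
      refine ⟨n + 1, fun k hk h => absurd ?_ hn⟩
      have h1 : n ∈ tr x k ↔ n ∈ tr y k := by rw [h]
      rw [mem_tr, mem_tr] at h1
      constructor
      · intro hx
        exact (h1.1 ⟨by omega, hx⟩).2
      · intro hy
        exact (h1.2 ⟨by omega, hy⟩).2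
  choose K hK using h
  refine ⟨a.sup fun x => a.sup fun y => K x y, fun k hk x hx y hy hxy => hK x y k ?_ hxy⟩
  refine le_trans ?_ hk
  exact (Finset.le_sup (f := fun y => K x y) hy).trans
    (Finset.le_sup (f := fun x => a.sup fun y => K x y) hx)

/-- continuum many independent functions -/
theorem exists_indep : ∃ f : Set ℕ → ℕ → ℕ, ∀ s v, (A f s v).Infinite := by
  classical
  let Ω : Type := ℕ × Finset (Finset ℕ × ℕ)
  obtain ⟨e⟩ : Nonempty (ℕ ≃ Ω) := nonempty_equiv_of_countable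
  refine ⟨fun x n => sInf {m | (tr x (e n).1, m) ∈ (e n).2}, fun s v => ?_⟩
  obtain ⟨k0, hk0⟩ := exists_tr_inj s
  have key : ∀ k, e.symm (k0 + k, s.image fun x => (tr x (k0 + k), v x)) ∈
      A (fun x n => sInf {m | (tr x (e n).1, m) ∈ (e n).2}) s v := by
    intro k x hx
    simp only [Equiv.apply_symm_apply]
    have : {m | (tr x (k0 + k), m) ∈ s.image fun x => (tr x (k0 + k), v x)} = {v x} := by
      ext m
      simp only [mem_setOf_eq, Finset.mem_image, Prod.mk.injEq, mem_singleton_iff]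
      constructor
      · rintro ⟨y, hy, h1, h2⟩
        rw [← h2, hk0 _ (by omega) y hy x hx h1]
      · intro h
        exact ⟨x, hx, rfl, h.symm⟩
    rw [this, csInf_singleton]
  refine Set.infinite_of_injective_forall_mem (f := fun k =>
    e.symm (k0 + k, s.image fun x => (tr x (k0 + k), v x))) ?_ key
  intro a b hab
  have := e.symm.injective hab
  have h1 := congrArg Prod.fst this
  simp only at h1
  omega

/-! ## The maximal filter -/

section
variable {ι : Type} (f : ι → ℕ → ℕ)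

/-- maximality of a filter for which all basic sets are positive -/
structure Mx (D : Filter ℕ) : Prop where
  le : D ≤ cofinite
  pos : ∀ s v, ∃ᶠ n in D, n ∈ A f s v
  dense : ∀ B : Set ℕ, (∃ᶠ n in D, n ∈ B) → ∃ s v, ∀ᶠ n in D, n ∈ A f s v → n ∈ B

theorem exists_mx (h : ∀ s v, (A f s v).Infinite) : ∃ D, Mx f D := by
  let T : Type := {F : Filter ℕ // F ≤ cofinite ∧ ∀ s v, ∃ᶠ n in F, n ∈ A f s v}
  have hT : T := ⟨cofinite, le_rfl, fun s v => by
    rw [frequently_cofinite_iff_infinite]; exact h s v⟩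
  obtain ⟨m, hm⟩ := exists_maximal_of_chains_bounded (α := T) (r := fun F G => G.1 ≤ F.1) (by
    intro c hc
    rcases c.eq_empty_or_nonempty with rfl | hne
    · exact ⟨hT, fun a ha => absurd ha (notMem_empty a)⟩
    · have hdir : Directed (· ≥ ·) (fun F : c => F.1.1) := by
        intro F G
        rcases hc.total F.2 G.2 with h1 | h1
        · exact ⟨G, h1, le_rfl⟩
        · exact ⟨F, le_rfl, h1⟩
      haveI : Nonempty c := hne.to_subtype
      refine ⟨⟨⨅ F : c, F.1.1, ?_, ?_⟩, fun a ha => iInf_le (fun F : c => F.1.1) ⟨a, ha⟩⟩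
      · obtain ⟨a, ha⟩ := hne
        exact (iInf_le (fun F : c => F.1.1) ⟨a, ha⟩).trans a.2.1
      · intro s v hcon
        obtain ⟨F, hF⟩ := (mem_iInf_of_directed hdir _).1 hcon
        exact F.1.2.2 s v hF) (fun {a b c} hab hbc => le_trans hbc hab)
  refine ⟨m.1, m.2.1, m.2.2, fun B hB => ?_⟩
  by_contra hcon
  push Not at hcon
  have hF : ∀ s v, ∃ᶠ n in m.1 ⊓ 𝓟 Bᶜ, n ∈ A f s v := by
    intro s v hc
    rw [eventually_inf_principal] at hc
    apply hcon s v
    filter_upwards [hc] with n hn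
    rintro ⟨hnA, hnB⟩
    exact hn hnB hnA
  have h1 := hm ⟨m.1 ⊓ 𝓟 Bᶜ, inf_le_left.trans m.2.1, hF⟩ inf_le_left
  have h2 : m.1 ≤ 𝓟 Bᶜ := h1.trans inf_le_right
  exact hB (le_principal_iff.1 h2)

variable {f} {D : Filter ℕ}

theorem compat_pos (hD : Mx f D) {s t : Finset ι} {v w : ι → ℕ}
    (h : ∀ i ∈ s, i ∈ t → v i = w i) : ∃ᶠ n in D, n ∈ A f s v ∧ n ∈ A f t w := by
  classical
  refine (hD.pos (s ∪ t) (fun i => if i ∈ s then v i else w i)).mono fun n hn => ⟨?_, ?_⟩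
  · intro i hi
    have := hn i (Finset.mem_union_left _ hi)
    simpa [hi] using this
  · intro i hi
    have := hn i (Finset.mem_union_right _ hi)
    by_cases hs : i ∈ s
    · simp only [hs, if_true] at this
      rw [this, h i hs hi]
    · simpa [hs] using this

theorem clash (hD : Mx f D) {s t : Finset ι} {v w : ι → ℕ} {B : Set ℕ}
    (h : ∀ i ∈ s, i ∈ t → v i = w i) (h1 : ∀ᶠ n in D, n ∈ A f s v → n ∈ B)
    (h2 : ∀ᶠ n in D, n ∈ A f t w → n ∉ B) : False := by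
  obtain ⟨n, ⟨h3, h4⟩, h5, h6⟩ := ((compat_pos hD h).and_eventually (h1.and h2)).exists
  exact h6 h4 (h5 h3)

theorem dense' (hD : Mx f D) {s : Finset ι} {v : ι → ℕ} {B : Set ℕ}
    (h : ∃ᶠ n in D, n ∈ A f s v ∧ n ∈ B) :
    ∃ t w, s ⊆ t ∧ (∀ i ∈ s, w i = v i) ∧ ∀ᶠ n in D, n ∈ A f t w → n ∈ B := by
  classical
  obtain ⟨t, w, htw⟩ := hD.dense {n | n ∈ A f s v ∧ n ∈ B} h
  obtain ⟨n, hn1, hn2⟩ := ((hD.pos t w).and_eventually htw).exists
  have hn3 := hn2 hn1
  refine ⟨s ∪ t, fun i => if i ∈ s then v i else w i, Finset.subset_union_left, ?_, ?_⟩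
  · intro i hi
    simp [hi]
  · filter_upwards [htw] with m hm hmA
    refine (hm fun i hi => ?_).2
    have h1 := hmA i (Finset.mem_union_right _ hi)
    by_cases hs : i ∈ s
    · simp only [hs, if_true] at h1
      rw [h1, ← hn3.1 i hs, hn1 i hi]
    · simpa [hs] using h1

variable (f D)

/-- the restriction of a finite set of indices -/
noncomputable def rs (J : Set ι) (s : Finset ι) : Finset ι := by
  classical exact s.filter (· ∈ J)

theorem mem_rs {J : Set ι} {s : Finset ι} {i : ι} : i ∈ rs J s ↔ i ∈ s ∧ i ∈ J := by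
  classical
  simp [rs]

/-- `B` is supported by `J` -/
def Supp (J : Set ι) (B : Set ℕ) : Prop :=
  ∀ s v, (∀ᶠ n in D, n ∈ A f s v → n ∈ B) → ∀ᶠ n in D, n ∈ A f (rs J s) v → n ∈ B

variable {f D}

theorem supp_of_crit (hD : Mx f D) {J : Set ι} {B : Set ℕ}
    (h : ∀ t w, (∀ᶠ n in D, n ∈ A f t w → n ∉ B) → ∃ (t' : Finset ι) (w' : ι → ℕ),
      (∀ i ∈ t', i ∈ J) ∧ (∀ᶠ n in D, n ∈ A f t' w' → n ∉ B) ∧ ∀ i ∈ t', i ∈ t → w' i = w i) :
    Supp f D J B := by
  intro s v hs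
  by_contra hcon
  have h1 : ∃ᶠ n in D, n ∈ A f (rs J s) v ∧ n ∈ Bᶜ := by
    intro h2
    apply hcon
    filter_upwards [h2] with n hn hnA
    by_contra hnB
    exact hn ⟨hnA, hnB⟩
  obtain ⟨t, w, ht1, ht2, ht3⟩ := dense' hD h1
  obtain ⟨t', w', h3, h4, h5⟩ := h t w ht3
  refine clash hD (s := s) (t := t') (v := v) (w := w') ?_ hs h4
  intro i hi hi'
  have h6 : i ∈ rs J s := mem_rs.2 ⟨hi, h3 i hi'⟩
  rw [h5 i hi' (ht1 h6), ht2 i h6]

theorem Supp.compl (hD : Mx f D) {J : Set ι} {B : Set ℕ} (h : Supp f D J B) :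
    Supp f D J Bᶜ := by
  refine supp_of_crit hD fun t w ht => ⟨rs J t, w, fun i hi => (mem_rs.1 hi).2, ?_, fun _ _ _ => rfl⟩
  simp only [mem_compl_iff, not_not] at ht ⊢
  exact h t w ht

theorem Supp.inter {J : Set ι} {B C : Set ℕ} (h : Supp f D J B) (h' : Supp f D J C) :
    Supp f D J (B ∩ C) := by
  intro s v hs
  filter_upwards [h s v (hs.mono fun n hn hA => (hn hA).1),
    h' s v (hs.mono fun n hn hA => (hn hA).2)] with n h1 h2 hA
  exact ⟨h1 hA, h2 hA⟩

theorem Supp.mono {J J' : Set ι} {B : Set ℕ} (h : Supp f D J B) (hJ : J ⊆ J') :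
    Supp f D J' B := by
  intro s v hs
  filter_upwards [h s v hs] with n hn hA
  refine hn fun i hi => hA i ?_
  rw [mem_rs] at hi ⊢
  exact ⟨hi.1, hJ hi.2⟩

theorem supp_univ (J : Set ι) : Supp f D J univ := fun _ _ _ => Eventually.of_forall fun _ _ => trivial

theorem supp_f (hD : Mx f D) {J : Set ι} {i : ι} (hi : i ∈ J) (S : Set ℕ) :
    Supp f D J {n | f i n ∈ S} := by
  intro s v hs
  by_cases his : i ∈ s
  · obtain ⟨n, hn1, hn2⟩ := ((hD.pos s v).and_eventually hs).exists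
    have h1 : v i ∈ S := by rw [← hn1 i his]; exact hn2 hn1
    refine Eventually.of_forall fun m hm => ?_
    change f i m ∈ S
    rw [hm i (mem_rs.2 ⟨his, hi⟩)]
    exact h1
  · have h2 : ∀ m, m ∈ S := by
      intro m
      obtain ⟨n, ⟨hn1, hn2⟩, hn3⟩ := ((compat_pos hD (s := s) (t := {i}) (v := v)
        (w := fun _ => m) (fun j hj hj' => absurd (Finset.mem_singleton.1 hj' ▸ hj) his)).and_eventually
        hs).exists
      have h3 := hn3 hn1
      have h4 := hn2 i (Finset.mem_singleton_self i)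
      change f i n ∈ S at h3
      rwa [h4] at h3
    exact Eventually.of_forall fun m _ => h2 _

theorem supp_split (hD : Mx f D) {J : Set ι} {i : ι} (hi : i ∈ J) {B : Set ℕ}
    (h : ∀ m, Supp f D J (B ∩ {n | f i n = m})) : Supp f D J B := by
  classical
  refine supp_of_crit hD fun t w ht => ?_
  obtain ⟨n, hn⟩ := (hD.pos t w).exists
  have h1 : Supp f D J ((B ∩ {k | f i k = f i n})ᶜ ∩ {k | f i k ∈ ({f i n} : Set ℕ)}) :=
    ((h (f i n)).compl hD).inter (supp_f hD hi {f i n})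
  have h2 := h1 (insert i t) (fun j => f j n) (by
    filter_upwards [ht] with k hk hA
    have h3 : f i k = f i n := hA i (Finset.mem_insert_self _ _)
    have h4 : k ∈ A f t w := fun j hj => by rw [hA j (Finset.mem_insert_of_mem hj)]; exact hn j hj
    exact ⟨fun h5 => hk h4 h5.1, h3⟩)
  refine ⟨rs J (insert i t), fun j => f j n, fun j hj => (mem_rs.1 hj).2, ?_, ?_⟩
  · filter_upwards [h2] with k hk hA hB
    exact (hk hA).1 ⟨hB, (hk hA).2⟩
  · intro j _ hj
    exact hn j hj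

theorem supp_biInter {J : Set ι} {γ : Type} {G : Set γ} (hG : G.Finite) {P : γ → Set ℕ}
    (h : ∀ g ∈ G, Supp f D J (P g)) : Supp f D J {n | ∀ g ∈ G, n ∈ P g} := by
  induction G, hG using Set.Finite.induction_on with
  | empty =>
    convert supp_univ (f := f) (D := D) J using 1
    ext n; simp
  | @insert a s _ _ ih =>
    have : {n | ∀ g ∈ insert a s, n ∈ P g} = P a ∩ {n | ∀ g ∈ s, n ∈ P g} := by
      ext n; simp
    rw [this]
    exact (h a (mem_insert _ _)).inter (ih fun g hg => h g (mem_insert_of_mem _ hg))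

/-- a maximal disjoint family -/
theorem exists_disj (C : Set (Set ℕ)) : ∃ M ⊆ C, M.PairwiseDisjoint id ∧
    ∀ X ∈ C, X.Nonempty → ∃ Y ∈ M, (X ∩ Y).Nonempty := by
  obtain ⟨M, hM⟩ := zorn_subset {M : Set (Set ℕ) | M ⊆ C ∧ M.PairwiseDisjoint id} (by
    intro c hc hch
    refine ⟨⋃₀ c, ⟨sUnion_subset fun s hs => (hc hs).1, ?_⟩, fun s hs => subset_sUnion_of_mem hs⟩
    exact (pairwise_sUnion hch.directedOn).2 fun s hs => (hc hs).2)
  refine ⟨M, hM.prop.1, hM.prop.2, fun X hX hne => ?_⟩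
  by_contra hcon
  push Not at hcon
  have h1 : insert X M ∈ {M : Set (Set ℕ) | M ⊆ C ∧ M.PairwiseDisjoint id} := by
    refine ⟨insert_subset hX hM.prop.1, hM.prop.2.insert fun Y hY _ => ?_⟩
    exact disjoint_iff_inter_eq_empty.2 (hcon Y hY)
  have h2 : X ∈ M := hM.le_of_ge h1 (subset_insert _ _) (mem_insert _ _)
  have h3 := hcon X h2
  rw [inter_self] at h3
  exact hne.ne_empty h3

theorem exists_supp (hD : Mx f D) (B : Set ℕ) : ∃ J : Set ι, J.Countable ∧ Supp f D J B := by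
  classical
  obtain ⟨M, hMC, hMd, hM⟩ := exists_disj {X : Set ℕ | ∃ t w, X = A f t w ∧
    ∀ᶠ n in D, n ∈ A f t w → n ∉ B}
  have hcM : M.Countable := by
    refine Set.countable_iff_exists_injOn.2 ⟨fun X => sInf X, ?_⟩
    intro X hX Y hY hXY
    by_contra hne
    have h1 : ∀ Z ∈ M, sInf Z ∈ Z := by
      intro Z hZ
      obtain ⟨t, w, rfl, -⟩ := hMC hZ
      exact Nat.sInf_mem (hD.pos t w).exists
    have h2 := (hMd hX hY hne)
    refine Set.disjoint_left.1 h2 (h1 X hX) ?_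
    simp only at hXY
    rw [hXY]
    exact h1 Y hY
  have hch : ∀ X ∈ M, ∃ t w, X = A f t w ∧ ∀ᶠ n in D, n ∈ A f t w → n ∉ B := fun X hX => hMC hX
  choose! t w htw ht using hch
  refine ⟨⋃ X ∈ M, (t X : Set ι), hcM.biUnion fun X _ => (t X).countable_toSet, ?_⟩
  refine supp_of_crit hD fun t' w' ht' => ?_
  obtain ⟨X, hX, n, hn1, hn2⟩ := hM (A f t' w') ⟨t', w', rfl, ht'⟩ (hD.pos t' w').exists
  refine ⟨t X, w X, fun i hi => mem_biUnion hX hi, ht X hX, fun i hi hi' => ?_⟩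
  rw [htw X hX] at hn2
  rw [← hn2 i hi, hn1 i hi']

variable (f D)

/-- all sets `{m ≤ g}` are supported by `J` -/
def SuppF (J : Set ι) (g : ℕ → ℕ) : Prop := ∀ m, Supp f D J {n | m ≤ g n}

variable {f D}

theorem SuppF.mono {J J' : Set ι} {g : ℕ → ℕ} (h : SuppF f D J g) (hJ : J ⊆ J') :
    SuppF f D J' g := fun m => (h m).mono hJ

theorem exists_suppF (hD : Mx f D) (g : ℕ → ℕ) : ∃ J : Set ι, J.Countable ∧ SuppF f D J g := by
  choose J hJ hJs using fun m => exists_supp hD {n | m ≤ g n}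
  exact ⟨⋃ m, J m, countable_iUnion hJ, fun m => (hJs m).mono (subset_iUnion J m)⟩

theorem supp_le (hD : Mx f D) {J : Set ι} {i : ι} (hi : i ∈ J) {g : ℕ → ℕ}
    (hg : SuppF f D J g) : Supp f D J {n | f i n ≤ g n} := by
  refine supp_split hD hi fun m => ?_
  have : {n | f i n ≤ g n} ∩ {n | f i n = m} = {n | m ≤ g n} ∩ {n | f i n ∈ ({m} : Set ℕ)} := by
    ext n
    simp only [mem_inter_iff, mem_setOf_eq, mem_singleton_iff]
    constructor
    · rintro ⟨h1, h2⟩
      exact ⟨h2 ▸ h1, h2⟩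
    · rintro ⟨h1, h2⟩
      exact ⟨h2 ▸ h1, h2⟩
  rw [this]
  exact (hg m).inter (supp_f hD hi {m})

end

/-! ## The recursion -/

section
variable {ι : Type} [LinearOrder ι] (f : ι → ℕ → ℕ) (D : Filter ℕ)

/-- the conditions at `i` for an ultrafilter `W` after `U` -/
def Cond (i : ι) (U W : Ultrafilter ℕ) : Prop :=
  (∀ B, Supp f D (Iio i) B → B ∈ U → B ∈ W) ∧ (∀ k, {n | k < f i n} ∈ W) ∧
    ∀ g : ℕ → ℕ, SuppF f D (Iio i) g → (∀ k, {n | k < g n} ∈ U) → {n | f i n ≤ g n} ∈ W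

/-- the filter of the requirements at `i` -/
def Fb (i : ι) (U : Ultrafilter ℕ) : Filter ℕ where
  sets := {X | ∃ (B : Set ℕ) (k : ℕ) (G : Set (ℕ → ℕ)), Supp f D (Iio i) B ∧ B ∈ U ∧ G.Finite ∧
    (∀ g ∈ G, SuppF f D (Iio i) g ∧ ∀ m, {n | m < g n} ∈ U) ∧
    ∀ᶠ n in D, n ∈ B → k < f i n → (∀ g ∈ G, f i n ≤ g n) → n ∈ X}
  univ_sets := ⟨univ, 0, ∅, supp_univ _, univ_mem, finite_empty, fun g hg => absurd hg (notMem_empty g),
    Eventually.of_forall fun _ _ _ _ => trivial⟩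
  sets_of_superset := by
    rintro X Y ⟨B, k, G, h1, h2, h3, h4, h5⟩ hXY
    exact ⟨B, k, G, h1, h2, h3, h4, h5.mono fun n hn a b c => hXY (hn a b c)⟩
  inter_sets := by
    rintro X Y ⟨B, k, G, h1, h2, h3, h4, h5⟩ ⟨B', k', G', h1', h2', h3', h4', h5'⟩
    refine ⟨B ∩ B', max k k', G ∪ G', h1.inter h1', inter_mem h2 h2', h3.union h3', ?_, ?_⟩
    · rintro g (hg | hg)
      · exact h4 g hg
      · exact h4' g hg
    · filter_upwards [h5, h5'] with n hn hn' hB hk hG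
      exact ⟨hn hB.1 (lt_of_le_of_lt (le_max_left _ _) hk) fun g hg => hG g (Or.inl hg),
        hn' hB.2 (lt_of_le_of_lt (le_max_right _ _) hk) fun g hg => hG g (Or.inr hg)⟩

variable {f D}

theorem Fb_le (i : ι) (U : Ultrafilter ℕ) : Fb f D i U ≤ D := by
  intro X hX
  exact ⟨univ, 0, ∅, supp_univ _, univ_mem, finite_empty, fun g hg => absurd hg (notMem_empty g),
    Filter.mem_of_superset hX fun n hn _ _ _ => hn⟩

theorem Fb_neBot (hD : Mx f D) (i : ι) {U : Ultrafilter ℕ} (hU : (U : Filter ℕ) ≤ D) :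
    (Fb f D i U).NeBot := by
  refine ⟨fun hbot => ?_⟩
  have hmem : (∅ : Set ℕ) ∈ Fb f D i U := by rw [hbot]; exact Filter.mem_bot
  obtain ⟨B, k, G, h1, h2, h3, h4, h5⟩ := hmem
  have h6 : Supp f D (Iio i) (B ∩ {n | ∀ g ∈ G, n ∈ {n | k + 1 ≤ g n}}) :=
    h1.inter (supp_biInter h3 fun g hg => (h4 g hg).1 (k + 1))
  have h7 : B ∩ {n | ∀ g ∈ G, n ∈ {n | k + 1 ≤ g n}} ∈ U := by
    refine inter_mem h2 ?_
    have : ∀ᶠ n in (U : Filter ℕ), ∀ g ∈ G, k + 1 ≤ g n := by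
      rw [eventually_all_finite h3]
      exact fun g hg => (h4 g hg).2 k
    exact this
  have h8 : ∃ᶠ n in D, n ∈ B ∩ {n | ∀ g ∈ G, n ∈ {n | k + 1 ≤ g n}} := by
    intro hc
    obtain ⟨n, hn1, hn2⟩ := (Filter.nonempty_of_mem (inter_mem h7 (hU hc)))
    exact hn2 hn1
  obtain ⟨s, v, hs⟩ := hD.dense _ h8
  obtain ⟨n, ⟨hn1, hn2⟩, hn3, hn4⟩ := ((compat_pos hD (s := rs (Iio i) s) (t := {i}) (v := v)
    (w := fun _ => k + 1) (fun j hj hj' =>
      absurd (Finset.mem_singleton.1 hj' ▸ (mem_rs.1 hj).2 : i ∈ Iio i) (lt_irrefl i))).and_eventually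
    ((h6 s v hs).and h5)).exists
  have h9 := hn3 hn1
  have h10 : f i n = k + 1 := hn2 i (Finset.mem_singleton_self i)
  exact hn4 h9.1 (by omega) (fun g hg => by rw [h10]; exact h9.2 g hg)

theorem Fb_anti (hD : Mx f D) {i j : ι} (hij : i < j) {U W : Ultrafilter ℕ}
    (h : Cond f D i U W) : Fb f D j W ≤ Fb f D i U := by
  rintro X ⟨B, k, G, h1, h2, h3, h4, h5⟩
  refine ⟨B ∩ {n | f i n ∈ Ioi k} ∩ {n | ∀ g ∈ G, n ∈ {n | f i n ≤ g n}}, 0, ∅, ?_, ?_,
    finite_empty, fun g hg => absurd hg (notMem_empty g), ?_⟩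
  · have hsub : Iio i ⊆ Iio j := Iio_subset_Iio hij.le
    exact ((h1.mono hsub).inter (supp_f hD (show i ∈ Iio j from hij) (Ioi k))).inter
      (supp_biInter h3 fun g hg => supp_le hD (show i ∈ Iio j from hij) ((h4 g hg).1.mono hsub))
  · refine inter_mem (inter_mem (h.1 B h1 h2) (h.2.1 k)) ?_
    have : ∀ᶠ n in (W : Filter ℕ), ∀ g ∈ G, f i n ≤ g n := by
      rw [eventually_all_finite h3]
      exact fun g hg => h.2.2 g (h4 g hg).1 (h4 g hg).2
    exact this
  · filter_upwards [h5] with n hn hn1 _ _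
    exact hn hn1.1.1 hn1.1.2 hn1.2

theorem cond_of_le {i : ι} {U W : Ultrafilter ℕ} (h : (W : Filter ℕ) ≤ Fb f D i U) :
    Cond f D i U W := by
  refine ⟨fun B hB hBU => h ?_, fun k => h ?_, fun g hg hgU => h ?_⟩
  · exact ⟨B, 0, ∅, hB, hBU, finite_empty, fun g hg => absurd hg (notMem_empty g),
      Eventually.of_forall fun n hn _ _ => hn⟩
  · exact ⟨univ, k, ∅, supp_univ _, univ_mem, finite_empty, fun g hg => absurd hg (notMem_empty g),
      Eventually.of_forall fun n _ hn _ => hn⟩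
  · exact ⟨univ, 0, {g}, supp_univ _, univ_mem, finite_singleton g,
      fun g' hg' => by rw [mem_singleton_iff.1 hg']; exact ⟨hg, hgU⟩,
      Eventually.of_forall fun n _ _ hn => hn g (mem_singleton g)⟩

theorem ext (hD : Mx f D) (S : Set ι) (U : ∀ i ∈ S, Ultrafilter ℕ)
    (hU : ∀ i hi, (U i hi : Filter ℕ) ≤ D)
    (hc : ∀ i hi j hj, i < j → Cond f D i (U i hi) (U j hj)) :
    ∃ W : Ultrafilter ℕ, (W : Filter ℕ) ≤ D ∧ ∀ i hi, Cond f D i (U i hi) W := by
  rcases S.eq_empty_or_nonempty with rfl | hne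
  · haveI : D.NeBot := by
      refine ⟨fun hbot => ?_⟩
      have := hD.pos ∅ (fun _ => 0)
      rw [hbot] at this
      exact this (by simp)
    exact ⟨Ultrafilter.of D, Ultrafilter.of_le D, fun i hi => absurd hi (notMem_empty i)⟩
  · haveI : Nonempty S := hne.to_subtype
    have hdir : Directed (· ≥ ·) (fun i : S => Fb f D i.1 (U i.1 i.2)) := by
      intro i j
      rcases lt_trichotomy i.1 j.1 with h | h | h
      · exact ⟨j, Fb_anti hD h (hc _ _ _ _ h), le_rfl⟩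
      · have : i = j := Subtype.ext h
        subst this
        exact ⟨i, le_rfl, le_rfl⟩
      · exact ⟨i, le_rfl, Fb_anti hD h (hc _ _ _ _ h)⟩
    haveI : (⨅ i : S, Fb f D i.1 (U i.1 i.2)).NeBot :=
      iInf_neBot_of_directed' hdir fun i => Fb_neBot hD i.1 (hU _ _)
    have hle : ∀ i : S, (Ultrafilter.of (⨅ i : S, Fb f D i.1 (U i.1 i.2)) : Filter ℕ) ≤
        Fb f D i.1 (U i.1 i.2) := fun i =>
      (Ultrafilter.of_le _).trans (iInf_le (fun i : S => Fb f D i.1 (U i.1 i.2)) i)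
    refine ⟨Ultrafilter.of (⨅ i : S, Fb f D i.1 (U i.1 i.2)), ?_, fun i hi => cond_of_le (hle ⟨i, hi⟩)⟩
    obtain ⟨i, hi⟩ := hne
    exact (hle ⟨i, hi⟩).trans (Fb_le _ _)

/-- the ultrafilter -/
theorem exists_ultra [WellFoundedLT ι] (hD : Mx f D) : ∃ (U : ι → Ultrafilter ℕ) (W : Ultrafilter ℕ),
    (W : Filter ℕ) ≤ D ∧ (∀ i j, i < j → Cond f D i (U i) (U j)) ∧ ∀ i, Cond f D i (U i) W := by
  obtain ⟨U, hU⟩ := wf_choice (α := ι) (β := Ultrafilter ℕ) (· < ·) wellFounded_lt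
    (fun i u b => ((∀ j hj, (u j hj : Filter ℕ) ≤ D) ∧
      ∀ j hj j' hj', j < j' → Cond f D j (u j hj) (u j' hj')) →
        ((b : Filter ℕ) ≤ D ∧ ∀ j hj, Cond f D j (u j hj) b)) (by
      intro i u
      by_cases h : (∀ j hj, (u j hj : Filter ℕ) ≤ D) ∧
        ∀ j hj j' hj', j < j' → Cond f D j (u j hj) (u j' hj')
      · obtain ⟨W, h1, h2⟩ := ext hD (Iio i) u h.1 h.2
        exact ⟨W, fun _ => ⟨h1, h2⟩⟩
      · exact ⟨Ultrafilter.of ⊤, fun h' => absurd h' h⟩)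
  have key : ∀ i, (U i : Filter ℕ) ≤ D ∧ ∀ j, j < i → Cond f D j (U j) (U i) := by
    intro i
    induction i using WellFoundedLT.induction with
    | ind i ih =>
      exact hU i ⟨fun j hj => (ih j hj).1, fun j _ j' hj' hjj => (ih j' hj').2 j hjj⟩
  obtain ⟨W, h1, h2⟩ := ext hD univ (fun i _ => U i) (fun i _ => (key i).1)
    (fun i _ j _ hij => (key j).2 i hij)
  exact ⟨U, W, h1, fun i j hij => (key j).2 i hij, fun i => h2 i trivial⟩

end

/-- The main theorem: coinitial sequences -/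
theorem main {ι : Type} [LinearOrder ι] [WellFoundedLT ι] (e : ι → Set ℕ) (he : e.Injective)
    (hι : ∀ s : Set ι, s.Countable → ∃ a, ∀ b ∈ s, b < a) :
    ∃ U : Ultrafilter ℕ, NonPr U ∧ ∃ g : ι → Filter.Germ (U : Filter ℕ) ℕ,
      (∀ i (n : ℕ), (n : Filter.Germ (U : Filter ℕ) ℕ) < g i) ∧ (∀ i j, i < j → g j < g i) ∧
      ∀ x : Filter.Germ (U : Filter ℕ) ℕ, (∀ n : ℕ, (n : Filter.Germ (U : Filter ℕ) ℕ) < x) →
        ∃ i, g i ≤ x := by
  classical
  obtain ⟨f0, hf0⟩ := exists_indep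
  let f : ι → ℕ → ℕ := fun i => f0 (e i)
  have hf : ∀ s v, (A f s v).Infinite := by
    intro s v
    refine (hf0 (s.map ⟨e, he⟩) (fun x => if h : ∃ i, e i = x then v h.choose else 0)).mono ?_
    intro n hn i hi
    have h2 : ∃ j, e j = e i := ⟨i, rfl⟩
    have h1 : f0 (e i) n = if h : ∃ j, e j = e i then v h.choose else 0 :=
      hn (e i) (Finset.mem_map_of_mem ⟨e, he⟩ hi)
    rw [dif_pos h2, he h2.choose_spec] at h1
    exact h1
  obtain ⟨D, hD⟩ := exists_mx f hf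
  obtain ⟨U, W, hW, hUU, hUW⟩ := exists_ultra hD
  refine ⟨W, ?_, fun i => ((f i : ℕ → ℕ) : Filter.Germ (W : Filter ℕ) ℕ), ?_, ?_, ?_⟩
  · intro n hn
    have h1 : ({n}ᶜ : Set ℕ) ∈ (W : Filter ℕ) := hW (hD.le (finite_singleton n).compl_mem_cofinite)
    obtain ⟨m, hm1, hm2⟩ := Filter.nonempty_of_mem (inter_mem hn h1)
    exact hm2 hm1
  · intro i n
    exact Filter.Germ.coe_lt.2 ((hUW i).2.1 n)
  · intro i j hij
    refine Filter.Germ.coe_lt.2 ?_
    have h1 : SuppF f D (Iio j) (fun n => f i n - 1) := by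
      intro m
      exact supp_f hD (show i ∈ Iio j from hij) {x | m ≤ x - 1}
    have h2 : ∀ k, {n | k < f i n - 1} ∈ U j := by
      intro k
      filter_upwards [(hUU i j hij).2.1 (k + 1)] with n hn
      have hn' : k + 1 < f i n := hn
      change k < f i n - 1
      omega
    have h3 := (hUW j).2.2 _ h1 h2
    filter_upwards [h3, (hUW i).2.1 0] with n hn1 hn2
    have hn1' : f j n ≤ f i n - 1 := hn1
    have hn2' : 0 < f i n := hn2
    omega
  · intro x
    induction x using Filter.Germ.inductionOn with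
    | _ g =>
      intro hx
      obtain ⟨J, hJ, hJg⟩ := exists_suppF hD g
      obtain ⟨i, hi⟩ := hι J hJ
      have h1 : SuppF f D (Iio i) g := hJg.mono hi
      refine ⟨i, Filter.Germ.coe_le.2 ((hUW i).2.2 g h1 fun k => ?_)⟩
      by_contra hcon
      have h2 : ({n | k + 1 ≤ g n}ᶜ : Set ℕ) ∈ U i := Ultrafilter.compl_mem_iff_notMem.2 hcon
      have h3 := (hUW i).1 _ ((h1 (k + 1)).compl hD) h2
      have h4 := Filter.Germ.coe_lt.1 (hx k)
      obtain ⟨n, hn1, hn2⟩ := Filter.nonempty_of_mem (inter_mem h3 h4)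
      exact hn1 hn2

theorem map_infinite {U V : Ultrafilter ℕ}
    (Φ : Filter.Germ (U : Filter ℕ) ℕ ≃o Filter.Germ (V : Filter ℕ) ℕ)
    {x : Filter.Germ (U : Filter ℕ) ℕ} (hx : ∀ n : ℕ, (n : Filter.Germ (U : Filter ℕ) ℕ) < x) (n : ℕ) :
    (n : Filter.Germ (V : Filter ℕ) ℕ) < Φ x := by
  have h1 : ∀ n : ℕ, (n : Filter.Germ (V : Filter ℕ) ℕ) ≤ Φ (n : Filter.Germ (U : Filter ℕ) ℕ) := by
    intro n
    induction n with
    | zero =>
      induction (Φ ((0 : ℕ) : Filter.Germ (U : Filter ℕ) ℕ)) using Filter.Germ.inductionOn with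
      | _ g => exact Filter.Germ.coe_le.2 (Eventually.of_forall fun n => Nat.zero_le _)
    | succ n ih =>
      have h2 : Φ (n : Filter.Germ (U : Filter ℕ) ℕ) < Φ ((n + 1 : ℕ) : Filter.Germ (U : Filter ℕ) ℕ) :=
        Φ.lt_iff_lt.2 (Filter.Germ.coe_lt.2 (Eventually.of_forall fun m => by simp))
      generalize Φ (n : Filter.Germ (U : Filter ℕ) ℕ) = a at *
      generalize Φ ((n + 1 : ℕ) : Filter.Germ (U : Filter ℕ) ℕ) = b at *
      induction a using Filter.Germ.inductionOn with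
      | _ a =>
      induction b using Filter.Germ.inductionOn with
      | _ b =>
        have h3 := Filter.Germ.coe_lt.1 h2
        have h4 := Filter.Germ.coe_le.1 ih
        refine Filter.Germ.coe_le.2 ?_
        filter_upwards [h3, h4] with m h5 h6
        simp only [Pi.natCast_apply, Nat.cast_id] at h6 ⊢
        omega
  exact lt_of_le_of_lt (h1 n) (Φ.lt_iff_lt.2 (hx n))

theorem bounded {κ : Cardinal.{0}} (h : κ.IsRegular) (s : Set κ.ord.ToType) (hs : #s < κ) :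
    ∃ a, ∀ b ∈ s, b < a := by
  rw [← not_isCofinal_iff]
  intro hc
  have := Order.cof_le hc
  rw [Ordinal.cof_toType, h.cof_ord] at this
  exact absurd hs this.not_gt

theorem exists_seq {κ : Cardinal.{0}} (h : κ.IsRegular) (h0 : ℵ₀ < κ) (h1 : κ ≤ continuum) :
    ∃ U : Ultrafilter ℕ, NonPr U ∧ ∃ g : κ.ord.ToType → Filter.Germ (U : Filter ℕ) ℕ,
      (∀ i (n : ℕ), (n : Filter.Germ (U : Filter ℕ) ℕ) < g i) ∧ (∀ i j, i < j → g j < g i) ∧
      ∀ x : Filter.Germ (U : Filter ℕ) ℕ, (∀ n : ℕ, (n : Filter.Germ (U : Filter ℕ) ℕ) < x) →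
        ∃ i, g i ≤ x := by
  have h2 : #κ.ord.ToType ≤ #(Set ℕ) := by
    rw [Cardinal.mk_ord_toType, Cardinal.mk_set_nat]
    exact h1
  obtain ⟨e⟩ := Cardinal.le_def _ _ |>.1 h2
  exact main e e.injective fun s hs => bounded h s ((Cardinal.le_aleph0_iff_set_countable.2 hs).trans_lt h0)

end Pool.Agent.R595.EP.SA

namespace Pool.Agent.R595.EP

open Filter Set Cardinal SA

theorem taskA : TaskA := by
  intro hCH
  have h1 : ℵ₁ ≤ continuum.{0} := aleph_one_le_continuum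
  have h2 : Order.succ ℵ₁ ≤ continuum.{0} := Order.succ_le_of_lt (lt_of_le_of_ne h1 hCH)
  have h0 : (ℵ₀ : Cardinal.{0}) < ℵ₁ := aleph0_lt_aleph_one
  have h3 : (ℵ₁ : Cardinal.{0}) < Order.succ ℵ₁ := Order.lt_succ _
  have hr1 : (ℵ₁ : Cardinal.{0}).IsRegular := isRegular_aleph_one
  have hr2 : (Order.succ ℵ₁ : Cardinal.{0}).IsRegular := isRegular_succ h0.le
  obtain ⟨U, hU, g, hg1, -, hg3⟩ := exists_seq hr1 h0 h1
  obtain ⟨V, hV, g', hg1', hg2', hg3'⟩ := exists_seq hr2 (h0.trans h3) h2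
  refine ⟨U, V, hU, hV, ⟨fun Φ => ?_⟩⟩
  have h4 : ∀ i, ∃ j, g' j ≤ Φ (g i) := fun i => hg3' _ (map_infinite Φ (hg1 i))
  choose j hj using h4
  obtain ⟨a, ha⟩ := bounded hr2 (range j) (by
    refine mk_range_le.trans_lt ?_
    rw [Cardinal.mk_ord_toType]
    exact h3)
  obtain ⟨i, hi⟩ := hg3 (Φ.symm (g' a)) (map_infinite Φ.symm (hg1' a))
  have h5 : Φ (g i) ≤ g' a := by
    have := Φ.le_iff_le.2 hi
    rwa [OrderIso.apply_symm_apply] at this
  have h6 : g' a < g' (j i) := hg2' _ _ (ha _ (mem_range_self i))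
  exact absurd (hj i) (not_le.2 (lt_of_le_of_lt h5 h6))

end Pool.Agent.R595.EP
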