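import Pool.Agent.R475.EPB.Germ

/-!
# Task B: under the continuum hypothesis all ultrapowers of `(ℕ, ≤)` are isomorphic
-/

set_option autoImplicit false

namespace Pool.Agent.R595.EP

open Cardinal Pool.Agent.R475.EPB

theorem taskB : TaskB := by
  intro hCH U V hU hV
  exact exists_iso (shGerm U hU) (shGerm V hV) ((mk_germ U).trans hCH.ge)
    ((mk_germ V).trans hCH.ge)

end Pool.Agent.R595.EP
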