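import Pool.Agent.R475.EPB.Transfer

/-!
# Task C: the orders `E_P` are the orders of the nonempty lower sets of ultrapowers
-/

set_option autoImplicit false

universe w

namespace Pool.Agent.R595.EP

open FirstOrder FirstOrder.Language Cardinal Filter Pool.Agent.R475.EPB

section Points

variable {M : Type w} [Full.Structure M] (h : Full.ElementarilyEquivalent M ℕ+)
  (hs : Saturated M) (P : Ultrafilter ℕ+)
include h

lemma nonempty_M : Nonempty M :=
  ⟨Structure.funMap (L := Full) (n := 0) (fun _ => (1 : ℕ+)) ![]⟩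

include hs

lemma mu_nonempty : (mu M P).Nonempty := by
  have h1 := hs {s | ∃ A ∈ P, s = star M A} ?_ ?_ ?_
  · obtain ⟨p, hp⟩ := h1
    refine ⟨p, fun A => ⟨fun hA => hp _ ⟨A, hA, rfl⟩, fun hA => ?_⟩⟩
    by_contra hc
    have h2 : Aᶜ ∈ P := Ultrafilter.compl_mem_iff_notMem.2 hc
    exact (star_compl h A p).1 (hp _ ⟨_, h2, rfl⟩) hA
  · have h2 : {s | ∃ A ∈ P, s = star M A} ⊆ Set.range (star M) := by
      rintro _ ⟨A, _, rfl⟩
      exact ⟨A, rfl⟩
    refine (mk_le_mk_of_subset h2).trans ?_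
    have h3 := mk_range_le_lift (f := star M)
    rw [mk_set, mk_eq_aleph0 ℕ+, two_power_aleph0, lift_continuum] at h3
    exact lift_le.1 (h3.trans (by rw [lift_continuum]))
  · rintro _ ⟨A, _, rfl⟩
    exact definable_star A
  · intro T hT hfin
    have key : ∃ B ∈ P, star M B ⊆ ⋂₀ T := by
      induction T, hfin using Set.Finite.induction_on with
      | empty => exact ⟨Set.univ, Filter.univ_mem, by simp⟩
      | insert _ _ ih =>
        rename_i s T _ _
        obtain ⟨B, hB, hBT⟩ := ih ((Set.subset_insert _ _).trans hT)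
        obtain ⟨A, hA, rfl⟩ := hT (Set.mem_insert _ _)
        refine ⟨A ∩ B, Filter.inter_mem hA hB, fun x hx => ?_⟩
        rw [Set.sInter_insert]
        have h2 := (star_inter h A B x).1 hx
        exact ⟨h2.1, hBT h2.2⟩
    obtain ⟨B, hB, hBT⟩ := key
    obtain ⟨n, hn⟩ := Ultrafilter.nonempty_of_mem hB
    obtain ⟨x⟩ := nonempty_M (M := M) h
    exact ⟨_, hBT (star_const h hn x)⟩

end Points

section Sets

variable {M : Type w} [Full.Structure M] (h : Full.ElementarilyEquivalent M ℕ+)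
  {P : Ultrafilter ℕ+}

/-- the germs of the functions `f` with `*f(p) ≤ x` -/
def phi (p : mu M P) (x : M) : Set (Germ (P : Filter ℕ+) ℕ+) :=
  {a | ∃ f : ℕ+ → ℕ+, (f : Germ (P : Filter ℕ+) ℕ+) = a ∧ ¬ lt M x (starF M f p)}

include h

lemma le_iff_germ (p : mu M P) (f g : ℕ+ → ℕ+) :
    ¬ lt M (starF M g p) (starF M f p) ↔
      (f : Germ (P : Filter ℕ+) ℕ+) ≤ (g : Germ (P : Filter ℕ+) ℕ+) := by
  rw [fun_le h, Germ.coe_le]
  exact (p.2 _).symm

lemma mem_phi (p : mu M P) (x : M) (f : ℕ+ → ℕ+) :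
    (f : Germ (P : Filter ℕ+) ℕ+) ∈ phi p x ↔ ¬ lt M x (starF M f p) := by
  constructor
  · rintro ⟨g, hg, hx⟩
    refine le_trans' h _ _ _ ?_ hx
    exact (le_iff_germ h p f g).2 hg.ge
  · intro hx
    exact ⟨f, rfl, hx⟩

lemma phi_lower (p : mu M P) (x : M) : IsLowerSet (phi p x) := by
  intro a b hba ha
  induction a using Germ.inductionOn with
  | _ f =>
    induction b using Germ.inductionOn with
    | _ g =>
      rw [mem_phi h] at ha ⊢
      exact le_trans' h _ _ _ ((le_iff_germ h p g f).2 hba) ha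

lemma phi_nonempty (p : mu M P) (x : M) : (phi p x).Nonempty :=
  ⟨_, (mem_phi h p x _).2 (one_le' h p.1 x)⟩

/-- as a nonempty lower set -/
def Phi (p : mu M P) (x : M) : {I : LowerSet (Germ (P : Filter ℕ+) ℕ+) // I ≠ ⊥} :=
  ⟨⟨phi p x, phi_lower h p x⟩, fun hb => by
    obtain ⟨a, ha⟩ := phi_nonempty h p x
    have h1 : a ∈ (⟨phi p x, phi_lower h p x⟩ : LowerSet (Germ (P : Filter ℕ+) ℕ+)) := ha
    rw [hb] at h1
    exact h1⟩

lemma equi_iff (hP : Primes ∈ P) (a b : mu M P × M) :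
    (equi M P).r a b ↔ Phi h a.1 a.2 = Phi h b.1 b.2 := by
  constructor
  · intro hr
    apply Subtype.ext
    apply LowerSet.ext
    ext c
    induction c using Germ.inductionOn with
    | _ f =>
      show (f : Germ (P : Filter ℕ+) ℕ+) ∈ phi a.1 a.2 ↔ (f : Germ (P : Filter ℕ+) ℕ+) ∈ phi b.1 b.2
      rw [mem_phi h, mem_phi h, ← mult_star h f ((a.1.2 _).1 hP), ← mult_star h f ((b.1.2 _).1 hP)]
      exact hr _ (mult_up f)
  · intro heq A hA
    rw [pow_star h hA, pow_star h hA, ← a.1.2, ← b.1.2, ← mem_phi h, ← mem_phi h]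
    have h1 : phi a.1 a.2 = phi b.1 b.2 := congrArg
      (fun I : {I : LowerSet (Germ (P : Filter ℕ+) ℕ+) // I ≠ ⊥} => I.1.carrier) heq
    rw [h1]

lemma phi_surj (hs : Saturated M) (p : mu M P)
    (I : {I : LowerSet (Germ (P : Filter ℕ+) ℕ+) // I ≠ ⊥}) : ∃ x, Phi h p x = I := by
  obtain ⟨a0, ha0⟩ : (I.1 : Set (Germ (P : Filter ℕ+) ℕ+)).Nonempty := by
    rw [Set.nonempty_iff_ne_empty]
    intro he
    exact I.2 (LowerSet.ext he)
  let up : (ℕ+ → ℕ+) → Set M := fun f => {x | ¬ lt M x (starF M f p)}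
  let dn : (ℕ+ → ℕ+) → Set M := fun f => {x | lt M x (starF M f p)}
  let S : Set (Set M) := {s | (∃ f : ℕ+ → ℕ+, (f : Germ (P : Filter ℕ+) ℕ+) ∈ I.1 ∧ s = up f) ∨
    ∃ f : ℕ+ → ℕ+, (f : Germ (P : Filter ℕ+) ℕ+) ∉ I.1 ∧ s = dn f}
  have h1 := hs S ?_ ?_ ?_
  · obtain ⟨x, hx⟩ := h1
    refine ⟨x, Subtype.ext (LowerSet.ext ?_)⟩
    ext c
    induction c using Germ.inductionOn with
    | _ f =>
      show (f : Germ (P : Filter ℕ+) ℕ+) ∈ phi p x ↔ (f : Germ (P : Filter ℕ+) ℕ+) ∈ I.1
      rw [mem_phi h]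
      constructor
      · intro hf
        by_contra hc
        exact hf (hx _ (Or.inr ⟨f, hc, rfl⟩))
      · intro hf
        exact hx _ (Or.inl ⟨f, hf, rfl⟩)
  · have h2 : S ⊆ Set.range up ∪ Set.range dn := by
      rintro _ (⟨f, _, rfl⟩ | ⟨f, _, rfl⟩)
      · exact Or.inl ⟨f, rfl⟩
      · exact Or.inr ⟨f, rfl⟩
    have h3 : ∀ F : (ℕ+ → ℕ+) → Set M, #(Set.range F) ≤ continuum := by
      intro F
      have h3 := mk_range_le_lift (f := F)
      have h4 : #(ℕ+ → ℕ+) = (continuum : Cardinal.{0}) := by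
        rw [← power_def, mk_eq_aleph0 ℕ+, aleph0_power_aleph0]
      rw [h4, lift_continuum] at h3
      exact lift_le.1 (h3.trans (by rw [lift_continuum]))
    refine (mk_le_mk_of_subset h2).trans ((mk_union_le _ _).trans ?_)
    exact add_le_of_le aleph0_le_continuum (h3 _) (h3 _)
  · rintro _ (⟨f, _, rfl⟩ | ⟨f, _, rfl⟩)
    · exact definable_le f p.1
    · exact definable_lt f p.1
  · intro T hT hfin
    have key : ∃ a ∈ I.1, ∀ f : ℕ+ → ℕ+, (f : Germ (P : Filter ℕ+) ℕ+) ∈ I.1 →
        a ≤ (f : Germ (P : Filter ℕ+) ℕ+) → starF M f p ∈ ⋂₀ T := by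
      induction T, hfin using Set.Finite.induction_on with
      | empty => exact ⟨a0, ha0, fun f _ _ => by simp⟩
      | insert _ _ ih =>
        rename_i s T _ _
        obtain ⟨a, ha, haT⟩ := ih ((Set.subset_insert _ _).trans hT)
        rcases hT (Set.mem_insert _ _) with ⟨g, hg, rfl⟩ | ⟨g, hg, rfl⟩
        · refine ⟨max a (g : Germ (P : Filter ℕ+) ℕ+), ?_, fun f hf hle => ?_⟩
          · rcases max_choice a (g : Germ (P : Filter ℕ+) ℕ+) with h5 | h5
            · rw [h5]; exact ha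
            · rw [h5]; exact hg
          · rw [Set.sInter_insert]
            refine ⟨?_, haT f hf ((le_max_left _ _).trans hle)⟩
            exact (le_iff_germ h p g f).2 ((le_max_right _ _).trans hle)
        · refine ⟨a, ha, fun f hf hle => ?_⟩
          rw [Set.sInter_insert]
          refine ⟨?_, haT f hf hle⟩
          by_contra hc
          exact hg (I.1.lower ((le_iff_germ h p g f).1 hc) hf)
    obtain ⟨a, ha, haT⟩ := key
    obtain ⟨f, rfl⟩ : ∃ f : ℕ+ → ℕ+, (f : Germ (P : Filter ℕ+) ℕ+) = a := Quotient.exists_rep a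
    exact ⟨_, haT f ha le_rfl⟩

end Sets

theorem taskC : TaskC.{w} := by
  intro M _ h hs P hP _
  have hmu : Nonempty (mu M P) := (mu_nonempty h hs P).to_subtype
  let Ψ : E M P → {I : LowerSet (Germ (P : Filter ℕ+) ℕ+) // I ≠ ⊥} :=
    Quotient.lift (fun a : mu M P × M => Phi h a.1 a.2)
      (fun a b hab => (equi_iff h hP a b).1 hab)
  have hinj : Function.Injective Ψ := by
    intro u v
    induction u using Quotient.inductionOn with
    | h a =>
      induction v using Quotient.inductionOn with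
      | h b =>
        intro hab
        exact Quotient.sound ((equi_iff h hP a b).2 hab)
  have hsurj : Function.Surjective Ψ := by
    intro I
    obtain ⟨p⟩ := hmu
    obtain ⟨x, hx⟩ := phi_surj h hs p I
    exact ⟨Quotient.mk _ (p, x), hx⟩
  have hmono : ∀ (p : mu M P) (x y : M), lt M x y → (Phi h p x).1 ≤ (Phi h p y).1 := by
    intro p x y hxy c hc
    induction c using Germ.inductionOn with
    | _ f =>
      have hc' : (f : Germ (P : Filter ℕ+) ℕ+) ∈ phi p x := hc
      show (f : Germ (P : Filter ℕ+) ℕ+) ∈ phi p y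
      rw [mem_phi h] at hc' ⊢
      exact fun h1 => hc' (lt_trans' h _ _ _ hxy h1)
  refine ⟨⟨Equiv.ofBijective Ψ ⟨hinj, hsurj⟩, ?_⟩⟩
  intro u v
  show (Ψ u).1 ≤ (Ψ v).1 ↔ Le M P u v
  constructor
  · intro hle
    induction u using Quotient.inductionOn with
    | h a =>
      obtain ⟨p, x⟩ := a
      obtain ⟨y, hy⟩ := phi_surj h hs p (Ψ v)
      have hv : Quotient.mk (equi M P) (p, y) = v := hinj hy
      by_cases heq : Quotient.mk (equi M P) (p, x) = v
      · exact Or.inr heq
      · left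
        refine ⟨heq, p, x, y, ?_, rfl, hv⟩
        rcases lt_tri h x y with h1 | rfl | h1
        · exact h1
        · exact absurd hv heq
        · exfalso
          apply heq
          apply hinj
          apply Subtype.ext
          refine le_antisymm hle ?_
          rw [← hy]
          exact hmono p y x h1
  · rintro (⟨_, p, x, y, hxy, rfl, rfl⟩ | rfl)
    · exact hmono p x y hxy
    · exact le_rfl

end Pool.Agent.R595.EP
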