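import Pool.Agent.R595.EP.Defs

/-!
# The orders `E_P`: assembly
-/

set_option autoImplicit false

universe w

namespace Pool.Agent.R595.EP

open FirstOrder FirstOrder.Language Cardinal Filter

/-- nonempty lower sets -/
abbrev NL (L : Type*) [LinearOrder L] : Type _ := {I : LowerSet L // I ≠ ⊥}

/-- principal lower sets, in terms of the order of the nonempty lower sets -/
def IsPrin {L : Type*} [LinearOrder L] (I : NL L) : Prop :=
  (∀ J : NL L, I.1 ≤ J.1) ∨ ∃ J : NL L, J.1 < I.1 ∧ ∀ K : NL L, K.1 < I.1 → K.1 ≤ J.1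

theorem iic_ne {L : Type*} [LinearOrder L] (a : L) : LowerSet.Iic a ≠ ⊥ := by
  intro h
  have : a ∈ (⊥ : LowerSet L) := by
    rw [← h]
    exact LowerSet.mem_Iic_iff.2 le_rfl
  exact this

theorem isPrin_iff {L : Type*} [LinearOrder L] (I : NL L) :
    IsPrin I ↔ ∃ a : L, I.1 = LowerSet.Iic a := by
  constructor
  · rintro (h | ⟨J, hJ, hJ'⟩)
    · have hne : ∃ a, a ∈ I.1 := by
        by_contra hcon
        push Not at hcon
        exact I.2 (by
          ext a
          simp [hcon a])
      obtain ⟨a, ha⟩ := hne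
      refine ⟨a, le_antisymm (h ⟨LowerSet.Iic a, iic_ne a⟩) ?_⟩
      exact LowerSet.Iic_le.2 ha
    · obtain ⟨a, ha, haJ⟩ := Set.exists_of_ssubset (show (J.1 : Set L) ⊂ (I.1 : Set L) from hJ)
      refine ⟨a, ?_⟩
      have h1 : LowerSet.Iic a ≤ I.1 := LowerSet.Iic_le.2 ha
      rcases h1.eq_or_lt with h2 | h2
      · exact h2.symm
      · exfalso
        have h3 := hJ' ⟨LowerSet.Iic a, iic_ne a⟩ h2
        exact haJ (h3 (LowerSet.mem_Iic_iff.2 le_rfl))
  · rintro ⟨a, ha⟩
    by_cases hb : ∃ b : L, b < a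
    · right
      obtain ⟨b, hb⟩ := hb
      refine ⟨⟨LowerSet.Iio a, ?_⟩, ?_, ?_⟩
      · intro h
        have : b ∈ (⊥ : LowerSet L) := by
          rw [← h]
          exact LowerSet.mem_Iio_iff.2 hb
        exact this
      · rw [ha]
        refine lt_of_le_of_ne (fun x hx => ?_) ?_
        · exact LowerSet.mem_Iic_iff.2 (LowerSet.mem_Iio_iff.1 hx).le
        · intro h
          have h0 : LowerSet.Iio a = LowerSet.Iic a := h
          have h1 : a ∈ LowerSet.Iio a := by
            rw [h0]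
            exact LowerSet.mem_Iic_iff.2 le_rfl
          exact lt_irrefl _ (LowerSet.mem_Iio_iff.1 h1)
      · intro K hK x hx
        rw [ha] at hK
        have h1 : x ≤ a := LowerSet.mem_Iic_iff.1 (hK.le hx)
        refine LowerSet.mem_Iio_iff.2 (lt_of_le_of_ne h1 ?_)
        rintro rfl
        exact absurd (LowerSet.Iic_le.2 hx) (not_le_of_gt hK)
    · left
      push Not at hb
      intro J
      have hne : ∃ c, c ∈ J.1 := by
        by_contra hcon
        push Not at hcon
        exact J.2 (by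
          ext c
          simp [hcon c])
      obtain ⟨c, hc⟩ := hne
      rw [ha]
      exact LowerSet.Iic_le.2 (J.1.lower (hb c) hc)

/-- an isomorphism of the orders of nonempty lower sets gives an isomorphism of the orders -/
theorem iso_of_lower {L L' : Type*} [LinearOrder L] [LinearOrder L']
    (e : (fun I J : NL L => I.1 ≤ J.1) ≃r (fun I J : NL L' => I.1 ≤ J.1)) :
    Nonempty (L ≃o L') := by
  have hle : ∀ I J : NL L, (e I).1 ≤ (e J).1 ↔ I.1 ≤ J.1 := fun I J => e.map_rel_iff
  have hlt : ∀ I J : NL L, (e I).1 < (e J).1 ↔ I.1 < J.1 := by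
    intro I J
    rw [lt_iff_le_not_ge, lt_iff_le_not_ge, hle, hle]
  have hprin : ∀ I : NL L, IsPrin I ↔ IsPrin (e I) := by
    intro I
    unfold IsPrin
    apply or_congr
    · constructor
      · intro h J
        obtain ⟨J, rfl⟩ := e.surjective J
        exact (hle I J).2 (h J)
      · intro h J
        exact (hle I J).1 (h (e J))
    · constructor
      · rintro ⟨J, h1, h2⟩
        refine ⟨e J, (hlt J I).2 h1, fun K hK => ?_⟩
        obtain ⟨K, rfl⟩ := e.surjective K
        exact (hle K J).2 (h2 K ((hlt K I).1 hK))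
      · rintro ⟨J, h1, h2⟩
        obtain ⟨J, rfl⟩ := e.surjective J
        refine ⟨J, (hlt J I).1 h1, fun K hK => ?_⟩
        exact (hle K J).1 (h2 (e K) ((hlt K I).2 hK))
  have hf : ∀ a : L, ∃ b : L', (e ⟨LowerSet.Iic a, iic_ne a⟩).1 = LowerSet.Iic b := fun a =>
    (isPrin_iff _).1 ((hprin _).1 ((isPrin_iff _).2 ⟨a, rfl⟩))
  choose f hf using hf
  have hmap : ∀ a b : L, f a ≤ f b ↔ a ≤ b := by
    intro a b
    have h1 : f a ≤ f b ↔ LowerSet.Iic (f a) ≤ LowerSet.Iic (f b) := by
      rw [LowerSet.Iic_le, LowerSet.mem_Iic_iff]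
    have h2 : a ≤ b ↔ LowerSet.Iic a ≤ LowerSet.Iic b := by
      rw [LowerSet.Iic_le, LowerSet.mem_Iic_iff]
    rw [h1, h2, ← hf, ← hf, hle]
  have hsurj : Function.Surjective f := by
    intro b
    obtain ⟨I, hI⟩ := e.surjective ⟨LowerSet.Iic b, iic_ne b⟩
    have h1 : IsPrin I := (hprin I).2 (by
      rw [hI]
      exact (isPrin_iff _).2 ⟨b, rfl⟩)
    obtain ⟨a, ha⟩ := (isPrin_iff I).1 h1
    refine ⟨a, ?_⟩
    have h2 : I = ⟨LowerSet.Iic a, iic_ne a⟩ := Subtype.ext ha
    have h3 := hf a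
    rw [← h2, hI] at h3
    exact (LowerSet.Iic_injective h3).symm
  exact ⟨RelIso.ofSurjective (OrderEmbedding.ofMapLEIff f hmap) hsurj⟩

/-- an isomorphism of orders gives an isomorphism of the orders of nonempty lower sets -/
theorem lower_of_iso {L L' : Type*} [LinearOrder L] [LinearOrder L'] (e : L ≃o L') :
    Nonempty ((fun I J : NL L => I.1 ≤ J.1) ≃r (fun I J : NL L' => I.1 ≤ J.1)) := by
  have h1 : ∀ I : LowerSet L, I ≠ ⊥ ↔ LowerSet.map e I ≠ ⊥ := by
    intro I
    rw [not_iff_not]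
    constructor
    · rintro rfl
      ext x
      simp
    · intro h
      ext x
      have h2 : e x ∈ LowerSet.map e I ↔ e x ∈ (⊥ : LowerSet L') := by rw [h]
      simpa using h2
  refine ⟨⟨(LowerSet.map e).toEquiv.subtypeEquiv h1, ?_⟩⟩
  intro I J
  exact (LowerSet.map e).le_iff_le

/-- transport of ultrapowers along an injection -/
theorem germ_map {α β X : Type} [LinearOrder X] [Nonempty α] (P : Ultrafilter α) (e : α → β)
    (he : Function.Injective e) :
    Nonempty (Germ (P.map e : Filter β) X ≃o Germ (P : Filter α) X) := by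
  have hinv : Function.LeftInverse (Function.invFun e) e := Function.leftInverse_invFun he
  let f : Germ (P.map e : Filter β) X → Germ (P : Filter α) X := fun g =>
    Quotient.liftOn' g (fun h : β → X => ((h ∘ e : α → X) : Germ (P : Filter α) X))
      fun h h' hh => Germ.coe_eq.2 hh
  have hmap : ∀ a b, f a ≤ f b ↔ a ≤ b := by
    intro a b
    induction a, b using Germ.inductionOn₂ with
    | _ h h' => exact Iff.rfl
  have hsurj : Function.Surjective f := by
    intro g
    induction g using Germ.inductionOn with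
    | _ h =>
      refine ⟨((h ∘ Function.invFun e : β → X) : Germ (P.map e : Filter β) X), ?_⟩
      change ((((h ∘ Function.invFun e) ∘ e : α → X)) : Germ (P : Filter α) X) = h
      have : (h ∘ Function.invFun e) ∘ e = h := by
        funext a
        simp [hinv a]
      rw [this]
  exact ⟨RelIso.ofSurjective (OrderEmbedding.ofMapLEIff f hmap) hsurj⟩

/-- transport of ultrapowers along an isomorphism of orders -/
theorem germ_iso {α X Y : Type} [LinearOrder X] [LinearOrder Y] (P : Ultrafilter α) (e : X ≃o Y) :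
    Nonempty (Germ (P : Filter α) X ≃o Germ (P : Filter α) Y) := by
  let f : Germ (P : Filter α) X → Germ (P : Filter α) Y := Germ.map e
  have hmap : ∀ a b, f a ≤ f b ↔ a ≤ b := by
    intro a b
    induction a, b using Germ.inductionOn₂ with
    | _ h h' =>
      change (((e ∘ h : α → Y)) : Germ (P : Filter α) Y) ≤ ((e ∘ h' : α → Y)) ↔ _
      rw [Germ.coe_le, Germ.coe_le]
      simp [Filter.EventuallyLE]
  have hsurj : Function.Surjective f := by
    intro g
    induction g using Germ.inductionOn with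
    | _ h =>
      refine ⟨((e.symm ∘ h : α → X) : Germ (P : Filter α) X), ?_⟩
      change (((e ∘ (e.symm ∘ h) : α → Y)) : Germ (P : Filter α) Y) = h
      have : e ∘ (e.symm ∘ h) = h := by
        funext a
        simp
      rw [this]
  exact ⟨RelIso.ofSurjective (OrderEmbedding.ofMapLEIff f hmap) hsurj⟩

theorem nonPr_map {α β : Type} {P : Ultrafilter α} (hP : NonPr P) {e : α → β}
    (he : Function.Injective e) : NonPr (P.map e) := by
  intro n hn
  have h1 : e ⁻¹' {n} ∈ P := hn
  obtain ⟨a, ha⟩ := Ultrafilter.nonempty_of_mem h1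
  refine hP a (Filter.mem_of_superset h1 ?_)
  intro b hb
  have h2 : e b = n := hb
  have h3 : e a = n := ha
  exact he (h2.trans h3.symm)

section
variable (hA : TaskA) (hB : TaskB) (hC : TaskC.{w})
include hC

theorem le_iso_iff (M : Type w) [Full.Structure M] (hM : Full.ElementarilyEquivalent M ℕ+)
    (hS : Saturated M) (P Q : Ultrafilter ℕ+) (hP : Primes ∈ P) (hP' : NonPr P)
    (hQ : Primes ∈ Q) (hQ' : NonPr Q) :
    Nonempty (Le M P ≃r Le M Q) ↔
      Nonempty (Germ (P : Filter ℕ+) ℕ+ ≃o Germ (Q : Filter ℕ+) ℕ+) := by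
  obtain ⟨eP⟩ := hC M hM hS P hP hP'
  obtain ⟨eQ⟩ := hC M hM hS Q hQ hQ'
  constructor
  · rintro ⟨e⟩
    exact iso_of_lower ((eP.symm.trans e).trans eQ)
  · rintro ⟨e⟩
    obtain ⟨e'⟩ := lower_of_iso e
    exact ⟨(eP.trans e').trans eQ.symm⟩

include hA hB

theorem main (M : Type w) [Full.Structure M] (hM : Full.ElementarilyEquivalent M ℕ+)
    (hS : Saturated M) :
    (∀ P Q : Ultrafilter ℕ+, Primes ∈ P → NonPr P → Primes ∈ Q → NonPr Q →
      Nonempty (Le M P ≃r Le M Q)) ↔ ℵ₁ = continuum.{0} := by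
  constructor
  · intro h
    by_contra hCH
    obtain ⟨U, V, hU, hV, hUV⟩ := hA hCH
    let e : ℕ → ℕ+ := fun n => ⟨Nat.nth Nat.Prime n, (Nat.prime_nth_prime n).pos⟩
    have he : Function.Injective e := by
      intro a b hab
      have h1 : Nat.nth Nat.Prime a = Nat.nth Nat.Prime b := congrArg PNat.val hab
      exact Nat.nth_injective Nat.infinite_setOfPred_prime h1
    have hprim : ∀ W : Ultrafilter ℕ, Primes ∈ W.map e := by
      intro W
      have h1 : e ⁻¹' Primes = Set.univ := Set.eq_univ_of_forall fun n => Nat.prime_nth_prime n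
      change e ⁻¹' Primes ∈ W
      rw [h1]
      exact Filter.univ_mem
    obtain ⟨i1⟩ := (le_iso_iff hC M hM hS _ _ (hprim U) (nonPr_map hU he) (hprim V)
      (nonPr_map hV he)).1 (h _ _ (hprim U) (nonPr_map hU he) (hprim V) (nonPr_map hV he))
    obtain ⟨j1⟩ := germ_map (X := ℕ+) U e he
    obtain ⟨j2⟩ := germ_map (X := ℕ+) V e he
    obtain ⟨k1⟩ := germ_iso U OrderIso.pnatIsoNat
    obtain ⟨k2⟩ := germ_iso V OrderIso.pnatIsoNat
    exact hUV.elim ((((k1.symm.trans j1.symm).trans i1).trans j2).trans k2)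
  · intro hCH P Q hP hP' hQ hQ'
    refine (le_iso_iff hC M hM hS P Q hP hP' hQ hQ').2 ?_
    have he : Function.Injective (Equiv.pnatEquivNat : ℕ+ → ℕ) := Equiv.pnatEquivNat.injective
    obtain ⟨i⟩ := hB hCH (P.map Equiv.pnatEquivNat) (Q.map Equiv.pnatEquivNat)
      (nonPr_map hP' he) (nonPr_map hQ' he)
    obtain ⟨j1⟩ := germ_map (X := ℕ) P Equiv.pnatEquivNat he
    obtain ⟨j2⟩ := germ_map (X := ℕ) Q Equiv.pnatEquivNat he
    obtain ⟨k1⟩ := germ_iso P OrderIso.pnatIsoNat
    obtain ⟨k2⟩ := germ_iso Q OrderIso.pnatIsoNat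
    exact ⟨(((k1.trans j1.symm).trans i).trans j2).trans k2.symm⟩

end

end Pool.Agent.R595.EP
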